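import Pool.Agent.L7h18.DG.A9

/-!
# The Liouville function at the values of all polynomials of bounded degree: constant terms with missing digits

The constant term is `c₁ + c`, where `c₁` is arbitrary and the digits of `c` in a large base `b` are independent random
variables with arbitrary laws of small variation (for example uniform on the digits different from one or several missing
digits: then the values of `c` form a Cantor set of dimension less than `1`). Almost surely the estimate holds for ALL
the polynomials of degree at most `d`, irreducible or not, with coefficients up to a power of `log X`, `X = b ^ K`, in all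
residue classes and all intervals up to the height `X ^ (1 / deg F)` times a power of `log X`.

Method. The second moment over `c` of the sum of `f (F (n) + c₁ + c)` is a double integral over the frequencies `α` and
`β` of the exponential sums of `f` and of the Weyl sums of `F` against the Fourier transform of the law of `c` at
`α - β`. The Fourier transform of the law is a product over the digits; by its leading and its last factors its `L¹`
norm over the arcs of height `Q` around the fractions with denominators at most `Q` is at most `X⁻¹ Q ^ ε` (the digits in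
the middle are not used). The inverse theorem for Weyl sums (`Pool.Agent.H373R2.NB`), Schur's bound on each level set of
the Weyl sum, and Davenport's theorem (starting files) on the arcs with `Q` at most a power of `log X` save every power
of `log X`. From Mathlib: `Polynomial ℤ`, `ArithmeticFunction.cardFactors m` (the number of prime factors of `m` with
multiplicity), `ArithmeticFunction.moebius`, `m ≡ r [ZMOD q]`, `Finset.Ioc u v` (the integers with `u < m ≤ v`).
-/

set_option autoImplicit false

namespace Pool.Agent.Results.MP_892e4c_nt.MissingDigitConstants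

open Finset

/-- The Liouville function on the integers, `λ(-m) = λ(m)` and `λ(0) = 0`. -/
noncomputable def lam (m : ℤ) : ℝ := if m = 0 then 0 else (-1) ^ ArithmeticFunction.cardFactors m.natAbs

/-- The Möbius function on the integers, `μ(-m) = μ(m)` and `μ(0) = 0`. -/
noncomputable def mu (m : ℤ) : ℝ := ((ArithmeticFunction.moebius m.natAbs : ℤ) : ℝ)

/-- The total variation of a function `p` on the digits `0, ..., b - 1`, continued by zero outside: for the uniform
distribution on a set of `s` digits which is the union of `r` (nonadjacent) intervals it is `2 r / s`. -/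
noncomputable def variation (b : ℕ) (p : ℕ → ℝ) : ℝ :=
  |p 0| + ∑ d ∈ range (b - 1), |p (d + 1) - p d| + |p (b - 1)|

/-- `p i` is the distribution of the `i`-th digit in base `b`: a probability on `{0, ..., b - 1}` the variation of which is
at most `b ^ (1 / n) / b`. -/
def DigitLaws (b n : ℕ) (p : ℕ → ℕ → ℝ) : Prop :=
  ∀ i, (∀ d, 0 ≤ p i d) ∧ ∑ d ∈ range b, p i d = 1 ∧ (b * variation b (p i)) ^ n ≤ b

/-- The probability of `c` (where `0 ≤ c < b ^ K`) if the `K` digits `c / b ^ i % b` of `c` in base `b` are independent and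
the `i`-th digit has the distribution `p i`. -/
noncomputable def prob (b K : ℕ) (p : ℕ → ℕ → ℝ) (c : ℕ) : ℝ := ∏ i ∈ range K, p i (c / b ^ i % b)

/-- For every `d` there are `n` and `b₀` such that for all bases `b ≥ b₀`, all `A` and `U` and all large `K`: let `X = b ^ K`,
let `p i` be distributions of digits of variation at most `b ^ (1 / n) / b` and let `c₁` be an integer with
`|c₁| ≤ K ^ A X`. Then a random `c` with `K` independent digits with the distributions `p i` has, up to an event of
probability at most `K ^ (-U)`, the following property: for ALL the polynomials `F` with integer coefficients at most `K ^ A` in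
absolute value and with `1 ≤ deg F ≤ d`, all moduli `q ≤ K ^ A`, all residue classes `r` and all `u`, `v` with
`|u|, |v| ≤ K ^ A X ^ (1 / deg F)` the sums of `λ(F(m) + c₁ + c)` and of `μ(F(m) + c₁ + c)` over the integers
`u < m ≤ v` with `m ≡ r` modulo `q` are at most `X ^ (1 / deg F) / K ^ U` in absolute value. -/
theorem result (d : ℕ) : ∃ n b₀ : ℕ, ∀ b : ℕ, b₀ ≤ b → ∀ A U : ℕ, ∃ K₀ : ℕ, ∀ K : ℕ, K₀ ≤ K →
    ∀ p : ℕ → ℕ → ℝ, DigitLaws b n p → ∀ c₁ : ℤ, |c₁| ≤ (K : ℤ) ^ A * (b : ℤ) ^ K →
    ∃ Ex ⊆ range (b ^ K), ∑ c ∈ Ex, prob b K p c ≤ 1 / (K : ℝ) ^ U ∧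
    ∀ c ∈ range (b ^ K), c ∉ Ex →
    ∀ F : Polynomial ℤ, 1 ≤ F.natDegree → F.natDegree ≤ d → (∀ i, |F.coeff i| ≤ (K : ℤ) ^ A) →
    ∀ q : ℕ, 1 ≤ q → q ≤ K ^ A → ∀ r u v : ℤ,
      |(u : ℝ)| ≤ (K : ℝ) ^ A * ((b : ℝ) ^ K) ^ (1 / (F.natDegree : ℝ)) →
      |(v : ℝ)| ≤ (K : ℝ) ^ A * ((b : ℝ) ^ K) ^ (1 / (F.natDegree : ℝ)) →
      |∑ m ∈ (Ioc u v).filter (fun m => m ≡ r [ZMOD q]), lam (F.eval m + (c₁ + c))| ≤
        ((b : ℝ) ^ K) ^ (1 / (F.natDegree : ℝ)) / (K : ℝ) ^ U ∧
      |∑ m ∈ (Ioc u v).filter (fun m => m ≡ r [ZMOD q]), mu (F.eval m + (c₁ + c))| ≤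
        ((b : ℝ) ^ K) ^ (1 / (F.natDegree : ℝ)) / (K : ℝ) ^ U := by
  obtain ⟨n, b₀, -, -, h⟩ := Pool.Agent.L7h18.DG.final_chowla d
  refine ⟨n, b₀, fun b hb A U => ?_⟩
  obtain ⟨K0, hK0⟩ := h b hb A U
  refine ⟨K0, fun K hK p hp c₁ hc₁ => ?_⟩
  obtain ⟨Ex, h1, h2, h3⟩ := hK0 K hK p (fun i => ⟨(hp i).1, (hp i).2.1⟩) (fun i => by
    rw [mul_comm]
    exact (hp i).2.2) c₁ hc₁
  refine ⟨Ex, h1, ?_, fun c hc hcE F hF1 hFd hFc q hq1 hq r u v hu hv => ?_⟩
  · refine le_trans (le_of_eq ?_) h2
    exact sum_congr rfl fun c _ => (Pool.Agent.L7h18.DG.Wt_eq b K p c).symm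
  · exact h3 c (mem_range.1 hc) hcE F hF1 hFd hFc q hq1 hq r u v hu hv

end Pool.Agent.Results.MP_892e4c_nt.MissingDigitConstants
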