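import Pool.Agent.N625.DY.H
import Pool.Agent.N625.DY.N

/-!
# The Liouville function at the values of arbitrary polynomials times linear factors whose constant terms are given by
# words of context-free languages

The constant terms of the linear factors are close to `c i + κ i * v i`, where the digits of `v i` form a correctly nested
word (for example a Dyck word) of a language of brackets, one language for each factor.

Method: exponential sums over the correctly nested words by a stack machine, and the passage from such exponential sums to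
correlations (`Pool.Agent.N625.DY`, helper625; `Pool.Agent.W93.AU`, `Pool.Agent.R459.LawNear`, `Pool.Agent.H807R2.Dav` of
the starting files).
-/

set_option autoImplicit false

namespace Pool.Agent.Results.MP_892e4c_nt.NestedWordConstants

open Finset

/-- `P` is a set of pairs of an opening digit and a closing digit which match each other, `E` is a set of neutral
digits; the digits are smaller than `b`, no digit plays two of the three roles, and there is at least one pair.
(An opening digit can match several closing digits, and conversely.) -/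
structure Alphabet (b : ℕ) (P : Finset (ℕ × ℕ)) (E : Finset ℕ) : Prop where
  lt : ∀ p ∈ P, p.1 < b ∧ p.2 < b
  ne : ∀ p ∈ P, ∀ p' ∈ P, p.1 ≠ p'.2
  neutral : ∀ a ∈ E, a < b ∧ ∀ p ∈ P, a ≠ p.1 ∧ a ≠ p.2
  nonempty : P.Nonempty

/-- The correctly nested words: the empty word; a neutral digit followed by a correctly nested word; and `o u c w`,
where `u` and `w` are correctly nested words and the opening digit `o` matches the closing digit `c`. -/
inductive Balanced (P : Finset (ℕ × ℕ)) (E : Finset ℕ) : List ℕ → Prop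
  | nil : Balanced P E []
  | neutral (a : ℕ) (w : List ℕ) : a ∈ E → Balanced P E w → Balanced P E (a :: w)
  | pair (o c : ℕ) (u w : List ℕ) : (o, c) ∈ P → Balanced P E u → Balanced P E w → Balanced P E (o :: (u ++ c :: w))

open Classical in
/-- The integers `v < b ^ k` whose `k` digits in base `b`, from the most significant to the least significant one (the
digit number `i`, `0 ≤ i < k`, from the left is `v / b ^ (k - 1 - i) % b`), form a correctly nested word. -/
noncomputable def brackets (b : ℕ) (P : Finset (ℕ × ℕ)) (E : Finset ℕ) (k : ℕ) : Finset ℕ :=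
  (range (b ^ k)).filter fun v => Balanced P E ((List.range k).map fun i => v / b ^ (k - 1 - i) % b)

/-- The Liouville function on the integers, `λ(-m) = λ(m)` and `λ(0) = 0`. -/
def lam (m : ℤ) : ℤ := if m = 0 then 0 else (-1) ^ ArithmeticFunction.cardFactors m.natAbs

/-- The product of the polynomial `f` and of the linear polynomials `α i X + h i`, `i ∈ I`. -/
noncomputable def prodPoly {s : ℕ} (f : Polynomial ℤ) (α : Fin s → ℕ) (h : Fin s → ℤ) (I : Finset (Fin s)) : Polynomial ℤ :=
  f * ∏ i ∈ I, (Polynomial.C (α i : ℤ) * Polynomial.X + Polynomial.C (h i))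

/-- The sum of `θ(n) λ(F(n))`, where `F` is the product of `f` and of the `α i X + h i`, `i ∈ I`, over the `1 ≤ n ≤ x` for
which all the `α i n + h i`, `i ∈ I`, are positive. -/
noncomputable def lamSum {s : ℕ} (θ : ℕ → ℂ) (f : Polynomial ℤ) (α : Fin s → ℕ) (h : Fin s → ℤ) (I : Finset (Fin s))
    (x : ℕ) : ℂ :=
  ∑ n ∈ (Icc 1 x).filter (fun n : ℕ => ∀ i ∈ I, 0 < (α i : ℤ) * n + h i), θ n * (lam ((prodPoly f α h I).eval (n : ℤ)) : ℂ)

/-- For all the vectors `h` of integers with `|h i - y i| ≤ k ^ W`, all nonempty sets `I` of indices, all `l`, and all `x`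
with `α i * x ≤ B N` for `i ∈ I`: `|∑ n ≤ x, θ l n * λ(F(n))| ≤ N / k ^ U`, where `F` is the product of `f l` and of the
`α i X + h i`, `i ∈ I`. -/
def Small (B U W N k : ℕ) {s L : ℕ} (f : Fin L → Polynomial ℤ) (θ : Fin L → ℕ → ℂ) (α : Fin s → ℕ) (y : Fin s → ℤ) : Prop :=
  ∀ h : Fin s → ℤ, (∀ i, |h i - y i| ≤ (k : ℤ) ^ W) → ∀ I : Finset (Fin s), I.Nonempty → ∀ l, ∀ x : ℕ,
    (∀ i ∈ I, α i * x ≤ B * N) → ‖lamSum (θ l) (f l) α h I x‖ ≤ N / (k : ℝ) ^ U

lemma bal_iff (P : Finset (ℕ × ℕ)) (E : Finset ℕ) (w : List ℕ) : Balanced P E w ↔ Pool.Agent.N625.DY.Balanced P E w := by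
  constructor
  · intro h
    induction h with
    | nil => exact .nil
    | neutral a w h1 _ ih => exact .neutral a w h1 ih
    | pair o c u w h1 _ _ ih1 ih2 => exact .pair o c u w h1 ih1 ih2
  · intro h
    induction h with
    | nil => exact .nil
    | neutral a w h1 _ ih => exact .neutral a w h1 ih
    | pair o c u w h1 _ _ ih1 ih2 => exact .pair o c u w h1 ih1 ih2

lemma brackets_eq (b : ℕ) (P : Finset (ℕ × ℕ)) (E : Finset ℕ) (k : ℕ) :
    brackets b P E k = Pool.Agent.N625.DY.brackets b P E k := by
  classical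
  unfold brackets Pool.Agent.N625.DY.brackets Pool.Agent.N625.DY.word
  ext v
  rw [mem_filter, mem_filter, bal_iff]

lemma lam_mul (m n : ℤ) : lam (m * n) = lam m * lam n := by
  unfold lam
  by_cases hm : m = 0
  · simp [hm]
  · by_cases hn : n = 0
    · simp [hn]
    · rw [if_neg (mul_ne_zero hm hn), if_neg hm, if_neg hn, Int.natAbs_mul,
        ArithmeticFunction.cardFactors_mul (Int.natAbs_ne_zero.2 hm) (Int.natAbs_ne_zero.2 hn), pow_add]

lemma lam_one : lam 1 = 1 := by
  unfold lam
  simp

lemma lam_prod {ι : Type} (I : Finset ι) (g : ι → ℤ) : lam (∏ i ∈ I, g i) = ∏ i ∈ I, lam (g i) := by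
  classical
  induction I using Finset.induction_on with
  | empty => simp [lam_one]
  | insert a I ha ih => rw [prod_insert ha, prod_insert ha, lam_mul, ih]

lemma lam_pos (m : ℤ) (hm : 0 < m) : Pool.Agent.R459.Shift.lam m = lam m := by
  unfold Pool.Agent.R459.Shift.lam lam
  rw [if_pos (by omega), if_neg (by omega)]
  have : m.toNat = m.natAbs := by omega
  rw [this]

lemma norm_lam_le (m : ℤ) : ‖(lam m : ℂ)‖ ≤ 1 := by
  unfold lam
  split_ifs
  · simp
  · push_cast
    rw [norm_pow]
    simp

lemma sum_eq {s : ℕ} (θ : ℕ → ℂ) (f : Polynomial ℤ) (α : Fin s → ℕ) (h : Fin s → ℤ) (I : Finset (Fin s)) (x : ℕ) :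
    lamSum θ f α h I x = ∑ n ∈ Icc 1 x, (θ n * (lam (f.eval (n : ℤ)) : ℂ)) *
      ∏ i ∈ I, (Pool.Agent.R459.Shift.lam (α i * n + h i) : ℂ) := by
  unfold lamSum
  rw [sum_filter]
  apply sum_congr rfl
  intro n _
  split_ifs with hn
  · have e1 : (prodPoly f α h I).eval (n : ℤ) = f.eval (n : ℤ) * ∏ i ∈ I, ((α i : ℤ) * n + h i) := by
      unfold prodPoly
      rw [Polynomial.eval_mul, Polynomial.eval_prod]
      congr 1
      apply prod_congr rfl
      intro i _
      simp
    rw [e1, lam_mul, lam_prod]
    push_cast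
    rw [mul_assoc]
    congr 2
    apply prod_congr rfl
    intro i hi
    rw [lam_pos _ (hn i hi)]
  · push Not at hn
    obtain ⟨i, hi, hle⟩ := hn
    have e1 : Pool.Agent.R459.Shift.lam (α i * n + h i) = 0 := by
      unfold Pool.Agent.R459.Shift.lam
      rw [if_neg (by omega)]
    have e2 : ∏ i ∈ I, (Pool.Agent.R459.Shift.lam (α i * n + h i) : ℂ) = 0 := by
      apply prod_eq_zero hi
      rw [e1]
      simp
    rw [e2, mul_zero]

open Classical in
/-- Let `b ≥ 2` and, for `i < s`, the matching pairs `P i` of digits and the neutral digits `E i` in base `b` and the number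
`κ i ≠ 0` be fixed, and `B`, `T`, `W` and `U`. Let `k` be large, let `c i` be integers with `|c i| ≤ B b ^ k`, let `α i ≥ 1`
be arbitrary, let `f l` be at most `k ^ T` arbitrary polynomials with integer coefficients (of any degree), and let `θ l` be
arbitrary functions bounded by `1` (e.g. `1`, or additive characters, or the indicator functions of residue classes). Then
all the vectors `v` of integers such that the `k` digits of `v i` in base `b` form a correctly nested word with the brackets
`P i` and the neutral digits `E i`, with the exception of a proportion of at most `1 / k ^ U` of them, have the following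
property: for all the vectors `h` of integers with `|h i - (c i + κ i v i)| ≤ k ^ W`, all nonempty sets `I` of indices and all
`l`, `|∑ n ≤ x, θ l n * λ(F(n))| ≤ b ^ k / k ^ U` for all `x ≤ B b ^ k / max (α i, i ∈ I)`, where `F` is the product of `f l`
and of the `α i X + h i`, `i ∈ I` (the sum is over the `n` for which these linear factors are positive). -/
theorem result (s b : ℕ) (P : Fin s → Finset (ℕ × ℕ)) (E : Fin s → Finset ℕ) (hA : ∀ i, Alphabet b (P i) (E i))
    (κ : Fin s → ℤ) (hκ : ∀ i, κ i ≠ 0) (B T W U : ℕ) :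
    ∃ k₀ : ℕ, ∀ k, k₀ ≤ k → ∀ c : Fin s → ℤ, (∀ i, |c i| ≤ B * (b : ℤ) ^ k) →
      ∀ L : ℕ, (L : ℝ) ≤ (k : ℝ) ^ T → ∀ (α : Fin s → ℕ) (f : Fin L → Polynomial ℤ) (θ : Fin L → ℕ → ℂ),
        (∀ i, 1 ≤ α i) → (∀ l n, ‖θ l n‖ ≤ 1) →
        (((Fintype.piFinset fun i => brackets b (P i) (E i) k).filter fun v =>
          ¬ Small B U W (b ^ k) k f θ α (fun i => c i + κ i * (v i : ℕ))).card : ℝ) ≤
          (Fintype.piFinset fun i => brackets b (P i) (E i) k).card / (k : ℝ) ^ U := by
  have hA' : ∀ i, Pool.Agent.N625.DY.Alphabet b (P i) (E i) := fun i =>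
    ⟨(hA i).lt, (hA i).ne, (hA i).neutral, (hA i).nonempty⟩
  obtain ⟨k₀, h0⟩ := Pool.Agent.N625.DY.cls_chowla s b κ (fun i => Pool.Agent.N625.DY.BrC b (P i) (E i))
    (fun i => Pool.Agent.N625.DY.br_cls (hA' i) (κ i) (hκ i)) B T W U
  refine ⟨k₀, fun k hk c hc L hL α f θ hα hθ => ?_⟩
  have e : ∀ v : Fin s → ℕ, Small B U W (b ^ k) k f θ α (fun i => c i + κ i * (v i : ℕ)) ↔
      Pool.Agent.N625.DY.NearT W k (Pool.Agent.N625.DY.SmallT B U (b ^ k) k α
        (fun l n => θ l n * (lam ((f l).eval (n : ℤ)) : ℂ))) (fun i => c i + κ i * (v i : ℕ)) := by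
    intro v
    unfold Small Pool.Agent.N625.DY.NearT Pool.Agent.N625.DY.SmallT
    simp only [sum_eq]
  have h1 := Pool.Agent.N625.DY.brs_count (fun _ => b) P E hA' (fun _ => k)
    (fun v => Small B U W (b ^ k) k f θ α (fun i => c i + κ i * (v i : ℕ))) (1 / (k : ℝ) ^ U) (by positivity) (fun hk2 => by
      have key := h0 k hk (fun i v => if v ∈ Pool.Agent.N625.DY.brackets b (P i) (E i) k then
          1 / ((Pool.Agent.N625.DY.brackets b (P i) (E i) k).card : ℝ) else 0)
        (fun i => ⟨hk2 i, rfl⟩) c hc L hL α (fun l n => θ l n * (lam ((f l).eval (n : ℤ)) : ℂ)) hα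
        (fun l n => by
          rw [norm_mul]
          exact mul_le_one₀ (hθ l n) (norm_nonneg _) (norm_lam_le _))
      refine le_trans (le_of_eq ?_) key
      apply sum_congr rfl
      intro v _
      by_cases hv : Small B U W (b ^ k) k f θ α (fun i => c i + κ i * (v i : ℕ))
      · rw [if_neg (not_not.2 hv), if_pos ((e v).1 hv)]
      · rw [if_pos hv, if_neg (fun h => hv ((e v).2 h))])
  rw [mul_one_div] at h1
  simp only [brackets_eq]
  refine le_trans (le_of_eq ?_) h1
  congr!

end Pool.Agent.Results.MP_892e4c_nt.NestedWordConstants
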