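import Pool.Agent.L7h16.CH.Count

/-!
# Chowla's conjecture along random and metric sequences of quadratic perturbations of arbitrary polynomials

Let `e ≥ 1`, let `P_1, …, P_k` be any integral polynomials of degree at most `e + 2`, and consider the polynomials
`f_i(m) = P_i(m) + a_i m² + b_i m` for `m ≤ X`, with coefficients `a_i` of the size `X ^ e` and `b_i` of the size `X ^ (e + 1)`, given by
the vector `v = (a_1, …, a_k, b_1, …, b_k)`. The starting file `AlmostAllPerturbations` shows that for almost all vectors `v` in a box
the Liouville function takes each pattern of signs at the `f_i(m)` with the expected frequency, in all windows of `[1, X]`.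

Here we show it for SEQUENCES of vectors, for all the polynomials `P_i` (of degree at most `e + 2`) at once and for ALL the vectors
`v` in neighbourhoods of a radius `(log X) ^ A`, in all windows and in all residue classes of the moduli `q ≤ (log X) ^ U`:

* for random vectors `Y_n` (of ANY dependence) with `X = x_n ≥ exp (n ^ δ)`, in the boxes `|a_i| ≤ B X ^ e`, `|b_i| ≤ B X ^ (e + 1)`,
  with probabilities of the values at most `C X ^ (-k (2 e + 1))`, almost surely for all large `n`; if only `x_n ≥ n ^ δ` then for all
  but `M / (log M) ^ U` of the `n < M`;
* for almost all real vectors `(α, β)` and the vectors near `(α_i x_n ^ e, β_i x_n ^ (e + 1))`, for all large `n` if `x_n ≥ exp (n ^ δ)`,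
  and for all but `M / (log M) ^ U` of the `n < M` if `x_n ≥ n ^ δ`, for instance `x_n = n`. For example, for almost all `(α, β)`,
  for ALL cubic polynomials `P` and almost all natural `X`: Chowla's conjecture holds for the cubic polynomials
  `P(m) + a m² + b m`, with `|a - α X|, |b - β X²| ≤ (log X) ^ A`, on `[1, X]`, with the error `X / (log X) ^ U`.
-/

set_option autoImplicit false

namespace Pool.Agent.Results.MP_892e4c_nt.RandomAndMetricPerturbations

open Finset Polynomial
open Pool.Agent.L7h16.SV (RandomAndMetric)
open Pool.Agent.L7h16.CH (Chowla dd)

lemma countable_poly : Countable ℤ[X] := by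
  rw [← Cardinal.mk_le_aleph0_iff]
  refine (Polynomial.cardinalMk_le_max).trans ?_
  simp

/-- **Chowla's conjecture along random and metric sequences.** The `j`-th exponent of `dd k e` is `e` for the first `k` and
`e + 1` for the last `k` of the `2 k` indices `j`; `Chowla P U X v` is the property of the polynomials
`f_i(m) = P_i(m) + v_i m² + v_{k+i} m` at the scale `X`: in all windows `(u, w]` of `[1, X]` and all residue classes of all moduli
`q ≤ (log X) ^ U` the products of the `λ(f_i(m))`, `i ∈ I ≠ ∅`, cancel, and each pattern of signs of the `λ(f_i(m))` occurs with the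
expected frequency, up to an error `X / (log X) ^ U`. -/
theorem result (k e : ℕ) (he : 1 ≤ e) :
    RandomAndMetric (dd k e) (fun (x : {P : Fin k → ℤ[X] // ∀ i, (P i).natDegree ≤ e + 2} × ℕ) X v => Chowla x.1.1 x.2 X v) := by
  have := countable_poly
  exact Pool.Agent.L7h16.SV.randomAndMetric _ (Pool.Agent.L7h16.CH.dd_one he) fun x => Pool.Agent.L7h16.CH.sparse he x.1.1 x.1.2 x.2

end Pool.Agent.Results.MP_892e4c_nt.RandomAndMetricPerturbations
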