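import Pool.Agent.N625.GW.E

/-!
# The Liouville function at the values of arbitrary polynomials times linear factors whose constant terms have digits
# which label walks in infinite graphs

For example the walks in the Cayley graph of a group: then the constant terms of the linear factors are close to
`c i + κ i * v i`, where the digits of `v i` spell a given element of the group. Such a set can contain as few as `N ^ ε`
integers below `N`, and in general it is not automatic.

Method: the exponential sum over the walks is dominated by the iterates of the adjacency operator of the graph, whose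
square is diminished on the diagonal at the places where the frequency has a digit which is not extremal; the passage from
such exponential sums to correlations (`Pool.Agent.N625.GW`, `Pool.Agent.N625.DY`, helper625; `Pool.Agent.W93.AU`,
`Pool.Agent.R459.LawNear`, `Pool.Agent.H807R2.Dav` of the starting files).
-/

set_option autoImplicit false

namespace Pool.Agent.Results.MP_892e4c_nt.WalkConstants

open Finset

/-- The digits `a < b` act on the set `X` of the vertices: an edge with the label `a` leads from `x` to `y` if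
`δ x a = some y` (at most one edge with the label `a` starts at `x`). The number of the edges from `x` to `y` equals the
number of the edges from `y` to `x`, and at least two edges start at every vertex. The graph may be infinite. -/
structure Graph {X : Type} (b : ℕ) (δ : X → ℕ → Option X) : Prop where
  symm : ∀ x y : X, {a : ℕ | a < b ∧ δ x a = some y}.ncard = {a : ℕ | a < b ∧ δ y a = some x}.ncard
  two : ∀ x : X, ∃ a a' : ℕ, a < a' ∧ a' < b ∧ (δ x a).isSome ∧ (δ x a').isSome

open Classical in
/-- The integers `v < b ^ k` whose `k` digits in base `b`, from the most significant to the least significant one (the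
digit number `i`, `0 ≤ i < k`, from the left is `v / b ^ (k - 1 - i) % b`), are the labels of a walk from `x` to `y`. -/
noncomputable def walks {X : Type} (b : ℕ) (δ : X → ℕ → Option X) (k : ℕ) (x y : X) : Finset ℕ :=
  (range (b ^ k)).filter fun v =>
    ((List.range k).map fun i => v / b ^ (k - 1 - i) % b).foldl (fun s a => s.bind fun z => δ z a) (some x) = some y

/-- The Liouville function on the integers, `λ(-m) = λ(m)` and `λ(0) = 0`. -/
def lam (m : ℤ) : ℤ := if m = 0 then 0 else (-1) ^ ArithmeticFunction.cardFactors m.natAbs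

/-- The product of the polynomial `f` and of the linear polynomials `α i X + h i`, `i ∈ I`. -/
noncomputable def prodPoly {s : ℕ} (f : Polynomial ℤ) (α : Fin s → ℕ) (h : Fin s → ℤ) (I : Finset (Fin s)) : Polynomial ℤ :=
  f * ∏ i ∈ I, (Polynomial.C (α i : ℤ) * Polynomial.X + Polynomial.C (h i))

/-- The sum of `θ(n) λ(F(n))`, where `F` is the product of `f` and of the `α i X + h i`, `i ∈ I`, over the `1 ≤ n ≤ x` for
which all the `α i n + h i`, `i ∈ I`, are positive. -/
noncomputable def lamSum {s : ℕ} (θ : ℕ → ℂ) (f : Polynomial ℤ) (α : Fin s → ℕ) (h : Fin s → ℤ) (I : Finset (Fin s))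
    (x : ℕ) : ℂ :=
  ∑ n ∈ (Icc 1 x).filter (fun n : ℕ => ∀ i ∈ I, 0 < (α i : ℤ) * n + h i), θ n * (lam ((prodPoly f α h I).eval (n : ℤ)) : ℂ)

/-- For all the vectors `h` of integers with `|h i - y i| ≤ k ^ W`, all nonempty sets `I` of indices, all `l`, and all `x`
with `α i * x ≤ B N` for `i ∈ I`: `|∑ n ≤ x, θ l n * λ(F(n))| ≤ N / k ^ U`, where `F` is the product of `f l` and of the
`α i X + h i`, `i ∈ I`. -/
def Small (B U W N k : ℕ) {s L : ℕ} (f : Fin L → Polynomial ℤ) (θ : Fin L → ℕ → ℂ) (α : Fin s → ℕ) (y : Fin s → ℤ) : Prop :=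
  ∀ h : Fin s → ℤ, (∀ i, |h i - y i| ≤ (k : ℤ) ^ W) → ∀ I : Finset (Fin s), I.Nonempty → ∀ l, ∀ x : ℕ,
    (∀ i ∈ I, α i * x ≤ B * N) → ‖lamSum (θ l) (f l) α h I x‖ ≤ N / (k : ℝ) ^ U

lemma lam_mul (m n : ℤ) : lam (m * n) = lam m * lam n := by
  unfold lam
  by_cases hm : m = 0
  · simp [hm]
  · by_cases hn : n = 0
    · simp [hn]
    · rw [if_neg (mul_ne_zero hm hn), if_neg hm, if_neg hn, Int.natAbs_mul,
        ArithmeticFunction.cardFactors_mul (Int.natAbs_ne_zero.2 hm) (Int.natAbs_ne_zero.2 hn), pow_add]

lemma lam_one : lam 1 = 1 := by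
  unfold lam
  simp

lemma lam_prod {ι : Type} (I : Finset ι) (g : ι → ℤ) : lam (∏ i ∈ I, g i) = ∏ i ∈ I, lam (g i) := by
  classical
  induction I using Finset.induction_on with
  | empty => simp [lam_one]
  | insert a I ha ih => rw [prod_insert ha, prod_insert ha, lam_mul, ih]

lemma lam_pos (m : ℤ) (hm : 0 < m) : Pool.Agent.R459.Shift.lam m = lam m := by
  unfold Pool.Agent.R459.Shift.lam lam
  rw [if_pos (by omega), if_neg (by omega)]
  have : m.toNat = m.natAbs := by omega
  rw [this]

lemma norm_lam_le (m : ℤ) : ‖(lam m : ℂ)‖ ≤ 1 := by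
  unfold lam
  split_ifs
  · simp
  · push_cast
    rw [norm_pow]
    simp

lemma sum_eq {s : ℕ} (θ : ℕ → ℂ) (f : Polynomial ℤ) (α : Fin s → ℕ) (h : Fin s → ℤ) (I : Finset (Fin s)) (x : ℕ) :
    lamSum θ f α h I x = ∑ n ∈ Icc 1 x, (θ n * (lam (f.eval (n : ℤ)) : ℂ)) *
      ∏ i ∈ I, (Pool.Agent.R459.Shift.lam (α i * n + h i) : ℂ) := by
  unfold lamSum
  rw [sum_filter]
  apply sum_congr rfl
  intro n _
  split_ifs with hn
  · have e1 : (prodPoly f α h I).eval (n : ℤ) = f.eval (n : ℤ) * ∏ i ∈ I, ((α i : ℤ) * n + h i) := by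
      unfold prodPoly
      rw [Polynomial.eval_mul, Polynomial.eval_prod]
      congr 1
      apply prod_congr rfl
      intro i _
      simp
    rw [e1, lam_mul, lam_prod]
    push_cast
    rw [mul_assoc]
    congr 2
    apply prod_congr rfl
    intro i hi
    rw [lam_pos _ (hn i hi)]
  · push Not at hn
    obtain ⟨i, hi, hle⟩ := hn
    have e1 : Pool.Agent.R459.Shift.lam (α i * n + h i) = 0 := by
      unfold Pool.Agent.R459.Shift.lam
      rw [if_neg (by omega)]
    have e2 : ∏ i ∈ I, (Pool.Agent.R459.Shift.lam (α i * n + h i) : ℂ) = 0 := by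
      apply prod_eq_zero hi
      rw [e1]
      simp
    rw [e2, mul_zero]

open Classical in
/-- Let `b`, `s`, `D`, `B`, `T`, `W` and `U` be fixed. Let `δ i`, for `i < s`, be graphs whose edges are labelled with the
digits in base `b`, let `x i` be a vertex, let `ρ i > 0` be such that there are at most `ρ i ^ (2 n)` closed walks of the
length `2 n` at `x i`, for all `n`, and let `κ i ≠ 0`. Let `k` be large, and let `y i` be vertices such that the number of
the walks of the length `k` from `x i` to `y i` is at least `ρ i ^ k / k ^ D`. Let `c i` be integers with `|c i| ≤ B b ^ k`,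
let `α i ≥ 1` be arbitrary, let `f l` be at most `k ^ T` arbitrary polynomials with integer coefficients (of any degree), and
let `θ l` be arbitrary functions bounded by `1` (e.g. `1`, or additive characters, or the indicator functions of residue
classes). Then all the vectors `v` of integers such that the `k` digits of `v i` in base `b` are the labels of a walk from
`x i` to `y i`, with the exception of a proportion of at most `1 / k ^ U` of them, have the following property: for all the
vectors `h` of integers with `|h i - (c i + κ i v i)| ≤ k ^ W`, all nonempty sets `I` of indices and all `l`,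
`|∑ n ≤ x, θ l n * λ(F(n))| ≤ b ^ k / k ^ U` for all `x ≤ B b ^ k / max (α i, i ∈ I)`, where `F` is the product of `f l` and
of the `α i X + h i`, `i ∈ I` (the sum is over the `n` for which these linear factors are positive).

(For a group of polynomial growth, a free group, or any group with the property of rapid decay, there are at least
`ρ ^ k / k ^ D` closed walks of every even length `k` in the Cayley graph, where `ρ` is its spectral radius.) -/
theorem result (s b : ℕ) (X : Fin s → Type) (δ : ∀ i, X i → ℕ → Option (X i)) (hG : ∀ i, Graph b (δ i)) (x : ∀ i, X i)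
    (ρ : Fin s → ℝ) (hρ : ∀ i, 0 < ρ i)
    (hR : ∀ i, ∀ n : ℕ, ((walks b (δ i) (2 * n) (x i) (x i)).card : ℝ) ≤ ρ i ^ (2 * n))
    (D : ℕ) (κ : Fin s → ℤ) (hκ : ∀ i, κ i ≠ 0) (B T W U : ℕ) :
    ∃ k₀ : ℕ, ∀ k, k₀ ≤ k → ∀ y : ∀ i, X i, (∀ i, ρ i ^ k / (k : ℝ) ^ D ≤ (walks b (δ i) k (x i) (y i)).card) →
      ∀ c : Fin s → ℤ, (∀ i, |c i| ≤ B * (b : ℤ) ^ k) →
      ∀ L : ℕ, (L : ℝ) ≤ (k : ℝ) ^ T → ∀ (α : Fin s → ℕ) (f : Fin L → Polynomial ℤ) (θ : Fin L → ℕ → ℂ),
        (∀ i, 1 ≤ α i) → (∀ l n, ‖θ l n‖ ≤ 1) →
        (((Fintype.piFinset fun i => walks b (δ i) k (x i) (y i)).filter fun v =>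
          ¬ Small B U W (b ^ k) k f θ α (fun i => c i + κ i * (v i : ℕ))).card : ℝ) ≤
          (Fintype.piFinset fun i => walks b (δ i) k (x i) (y i)).card / (k : ℝ) ^ U := by
  obtain ⟨k₀, h0⟩ := Pool.Agent.N625.GW.w_chowla s b X δ (fun i => ⟨(hG i).symm, (hG i).two⟩) x ρ hρ hR D κ hκ B T W U
  refine ⟨k₀ + 1, fun k hk y hy c hc L hL α f θ hα hθ => ?_⟩
  have e : ∀ v : Fin s → ℕ, Small B U W (b ^ k) k f θ α (fun i => c i + κ i * (v i : ℕ)) ↔
      Pool.Agent.N625.DY.NearT W k (Pool.Agent.N625.DY.SmallT B U (b ^ k) k α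
        (fun l n => θ l n * (lam ((f l).eval (n : ℤ)) : ℂ))) (fun i => c i + κ i * (v i : ℕ)) := by
    intro v
    unfold Small Pool.Agent.N625.DY.NearT Pool.Agent.N625.DY.SmallT
    simp only [sum_eq]
  have key := h0 k (by omega) y (fun i => by
      have h1 := hy i
      have hk1 : (0 : ℝ) < (k : ℝ) ^ D := by
        have : (0 : ℝ) < k := by exact_mod_cast (by omega : 0 < k)
        positivity
      rw [div_le_iff₀ hk1, mul_comm] at h1
      exact h1) c hc L hL α (fun l n => θ l n * (lam ((f l).eval (n : ℤ)) : ℂ)) hα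
    (fun l n => by
      rw [norm_mul]
      exact mul_le_one₀ (hθ l n) (norm_nonneg _) (norm_lam_le _))
  simp only [e]
  exact key

end Pool.Agent.Results.MP_892e4c_nt.WalkConstants
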